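import Pool.Agent.LSG.StmtsB
import Pool.Agent.Helper45_LSG.NPL

/-!
# Squad LSG, row NP2: groups which are not precompact, stronger form
-/

set_option autoImplicit false

open MeasureTheory Set Topology
open scoped BigOperators Pointwise

namespace Pool.Agent.LSG.H21

/-- `X × ℕ` is a countable sum of copies of `X` -/
def homN (X : Type) [TopologicalSpace X] : (X × ℕ) ≃ₜ (Σ _ : ℕ, X) where
  toFun p := ⟨p.2, p.1⟩
  invFun q := (q.2, q.1)
  left_inv _ := rfl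
  right_inv _ := rfl
  continuous_toFun := by
    rw [continuous_prod_of_discrete_right]
    intro n
    exact continuous_sigmaMk (σ := fun _ : ℕ => X) (i := n)
  continuous_invFun := by
    rw [continuous_sigma_iff]
    intro n
    have h : Continuous fun x : X => (x, n) := continuous_id.prodMk continuous_const
    exact h

theorem np2 (h1 : NpcStmt) (h2 : CvrStmt) (h3 : CcvStmt) (h4 : PelStmt) (h5 : CexStmt)
    (h6 : CpeStmt) (h7 : BriStmt) : Np2Stmt := by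
  intro H _ _ _ _ _ hU
  refine ⟨?_, H45.npl h1 h2 h3 h4 h5 h6 h7 H hU⟩
  obtain ⟨V, g, hV, hVc, hdisj, hlf⟩ := h1 H hU
  have c1 : Compl ↥(Cp H) (ℕ → ↥(Cp V)) := h2 H V hV
  have c2 : Compl (ℕ → ↥(Cp V)) ↥(Cp H) := h3 H V g hVc hdisj hlf
  obtain ⟨e⟩ := (h4 (ℕ → ↥(Cp V)) ↥(Cp H) ⟨H45.pairL ↥(Cp V)⟩).1 c2 c1
  have e2 : ↥(Cp H) ≃L[ℝ] (ℕ → ↥(Cp H)) :=
    (e.trans (H45.pairL ↥(Cp V))).trans (ContinuousLinearEquiv.piCongrRight fun _ => e.symm)
  obtain ⟨e3⟩ := h6.1 (H × ℕ) (Σ _ : ℕ, H) ⟨homN H⟩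
  obtain ⟨e4⟩ := h6.2.2.1 ℕ (fun _ => H)
  exact (h7.1 H (H × ℕ)).2 ⟨e2.trans (e3.trans e4).symm⟩

end Pool.Agent.LSG.H21
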