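import Pool.Agent.LSG.StmtsA

/-!
LSG, row BRI: the two forms of the definitions.
-/

set_option autoImplicit false

open MeasureTheory Set Topology

namespace Pool.Agent.LSG.H21

/-- `C(X, ℝ)` and `Cp X` -/
def toCp (X : Type) [TopologicalSpace X] : C(X, ℝ) ≃ₗ[ℝ] ↥(Cp X) where
  toFun f := ⟨⇑f, f.continuous⟩
  invFun f := ⟨f.1, f.2⟩
  left_inv _ := rfl
  right_inv _ := rfl
  map_add' _ _ := rfl
  map_smul' _ _ := rfl

theorem cont_iff {X Y : Type} [TopologicalSpace X] [TopologicalSpace Y] (T : C(X, ℝ) → C(Y, ℝ)) :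
    PCont T ↔ Continuous fun f : ↥(Cp X) => (toCp Y (T ((toCp X).symm f)) : ↥(Cp Y)) := by
  constructor
  · intro h
    have h1 : Continuous fun f : ↥(Cp X) => (⟨f.1, f.2⟩ : {g : X → ℝ // Continuous g}) :=
      Continuous.subtype_mk continuous_subtype_val _
    exact Continuous.subtype_mk (h.comp h1) _
  · intro h
    have h1 : Continuous fun f : {g : X → ℝ // Continuous g} => (⟨f.1, f.2⟩ : ↥(Cp X)) :=
      Continuous.subtype_mk continuous_subtype_val _
    exact continuous_subtype_val.comp (h.comp h1)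

theorem leq_iff (X Y : Type) [TopologicalSpace X] [TopologicalSpace Y] : LEq X Y ↔ LEc X Y := by
  constructor
  · rintro ⟨T, h1, h2⟩
    exact ⟨{ (toCp X).symm ≪≫ₗ T ≪≫ₗ toCp Y with
      continuous_toFun := (cont_iff _).1 h1
      continuous_invFun := (cont_iff _).1 h2 }⟩
  · rintro ⟨e⟩
    refine ⟨toCp X ≪≫ₗ e.toLinearEquiv ≪≫ₗ (toCp Y).symm, ?_, ?_⟩
    · exact (cont_iff _).2 e.continuous
    · exact (cont_iff _).2 e.symm.continuous

theorem lemb_iff (X : Type) [TopologicalSpace X] (A : Set X) : LEmb A ↔ LEmc A := by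
  constructor
  · rintro ⟨φ, h1, h2⟩
    refine ⟨⟨(toCp X).toLinearMap ∘ₗ φ ∘ₗ (toCp A).symm.toLinearMap, (cont_iff _).1 h1⟩, ?_⟩
    intro f a
    exact h2 ((toCp A).symm f) a
  · rintro ⟨φ, h⟩
    refine ⟨(toCp X).symm.toLinearMap ∘ₗ φ.toLinearMap ∘ₗ (toCp A).toLinearMap, ?_, ?_⟩
    · exact (cont_iff _).2 φ.continuous
    · intro f a
      exact h (toCp A f) a

theorem bri : BriStmt := ⟨fun X Y _ _ => leq_iff X Y, fun X _ A => lemb_iff X A⟩

end Pool.Agent.LSG.H21
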