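import Pool.Agent.LSG.Stmts

/-!
LSG, row PHI: the isolated support point as a measurable function.
-/

set_option autoImplicit false

open MeasureTheory Set Topology

namespace Pool.Agent.LSG.H21

theorem z2 : ∀ z : ZMod 2, z ≠ 1 → z = 0 := by decide

theorem phi (h1 : MsbStmt) : PhiStmt := by
  classical
  intro G k A B hA hB T c hR v i
  choose M hM hMx using fun w : Ix k => h1 G k A B hA hB T c hR v w i
  -- the index `(n + 1, r, j)`
  let ix : (n : ℕ) → (Fin (n + 1) → ZMod 2) → Fin k → Ix k := fun n r j => (⟨n + 1, r⟩, j)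
  let En : ℕ → Set K := fun n =>
    ⋃ r : Fin (n + 1) → ZMod 2, ⋃ j : Fin k, if r (Fin.last n) = 1 then M (ix n r j) else ∅
  have hEn : ∀ n, MeasurableSet (En n) := by
    intro n
    refine MeasurableSet.iUnion fun r => MeasurableSet.iUnion fun j => ?_
    split_ifs
    · exact hM _
    · exact MeasurableSet.empty
  have hmemEn : ∀ (n : ℕ) (x : K), x ∈ En n ↔ ∃ (r : Fin (n + 1) → ZMod 2) (j : Fin k),
      r (Fin.last n) = 1 ∧ x ∈ M (ix n r j) := by
    intro n x
    simp only [En, Set.mem_iUnion]
    constructor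
    · rintro ⟨r, j, h⟩
      by_cases hr : r (Fin.last n) = 1
      · rw [if_pos hr] at h
        exact ⟨r, j, hr, h⟩
      · rw [if_neg hr] at h
        exact absurd h (Set.notMem_empty x)
    · rintro ⟨r, j, hr, h⟩
      refine ⟨r, j, ?_⟩
      rw [if_pos hr]
      exact h
  refine ⟨M v, fun x n => if x ∈ En n then 1 else 0, hM v, ?_, ?_⟩
  · refine measurable_pi_lambda _ fun n => ?_
    exact Measurable.ite (hEn n) measurable_const measurable_const
  · intro x hx
    refine ⟨?_, ?_⟩
    · rw [hMx v x hx]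
      constructor
      · rintro ⟨hb, p, hp, -⟩
        exact ⟨hb, p, hp⟩
      · rintro ⟨hb, p, hp⟩
        exact ⟨hb, p, hp, hp.2.1⟩
    · intro hb p hp
      funext n
      have key : x ∈ En n ↔ (p.1.1 : K) n = 1 := by
        rw [hmemEn]
        constructor
        · rintro ⟨r, j, hr, hx'⟩
          obtain ⟨hb', p', hp', hbox⟩ := (hMx _ x hx).1 hx'
          have hpp : p' = p := hp.2.2 p' hp'.1 hp'.2.1
          rw [hpp] at hbox
          have h2 := hbox.2 (Fin.last n)
          have h3 : (p.1.1 : K) ((Fin.last n : Fin (n + 1)) : ℕ) = r (Fin.last n) := h2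
          rw [Fin.val_last, hr] at h3
          exact h3
        · intro hn
          refine ⟨fun l => (p.1.1 : K) l, p.1.2, ?_, ?_⟩
          · change (p.1.1 : K) ((Fin.last n : Fin (n + 1)) : ℕ) = 1
            rw [Fin.val_last]
            exact hn
          · rw [hMx _ x hx]
            exact ⟨hb, p, hp, rfl, fun l => rfl⟩
      change (if x ∈ En n then (1 : ZMod 2) else 0) = (p.1.1 : K) n
      by_cases hn : (p.1.1 : K) n = 1
      · rw [if_pos (key.2 hn), hn]
      · rw [if_neg (fun h => hn (key.1 h)), z2 _ hn]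

end Pool.Agent.LSG.H21
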