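import Pool.Agent.LSG.StmtsC

/-!
# Squad LSG, row CZI: the space of null sequences is complemented

The intervals are `J_n = [2 / 4 ^ (n + 1), 3 / 4 ^ (n + 1)]`, and `w_n` has support in
`[1 / 4 ^ (n + 1), 1 / 4 ^ n]`.
-/

set_option autoImplicit false

open MeasureTheory Set Topology
open scoped BigOperators Pointwise

namespace Pool.Agent.LSG.H21

/-- the scaled variable -/
noncomputable def rr (n : ℕ) (t : unitInterval) : ℝ := (t : ℝ) * 4 ^ (n + 1)

/-- the weights -/
noncomputable def ww (n : ℕ) (t : unitInterval) : ℝ :=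
  max 0 (min 1 (min (rr n t - 1) (4 - rr n t)))

/-- the position in the interval `J_n` -/
noncomputable def cc (n : ℕ) (t : unitInterval) : unitInterval :=
  Set.projIcc (0 : ℝ) 1 zero_le_one (rr n t - 2)

theorem rr_cont (n : ℕ) : Continuous (rr n) := by
  unfold rr
  fun_prop

theorem ww_cont (n : ℕ) : Continuous (ww n) :=
  continuous_const.max (continuous_const.min
    (((rr_cont n).sub continuous_const).min (continuous_const.sub (rr_cont n))))

theorem cc_cont (n : ℕ) : Continuous (cc n) :=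
  continuous_projIcc.comp ((rr_cont n).sub continuous_const)

theorem ww_nonneg (n : ℕ) (t : unitInterval) : 0 ≤ ww n t := le_max_left _ _

theorem ww_le_one (n : ℕ) (t : unitInterval) : ww n t ≤ 1 :=
  max_le zero_le_one (min_le_left _ _)

theorem ww_ne {n : ℕ} {t : unitInterval} (h : ww n t ≠ 0) : 1 < rr n t ∧ rr n t < 4 := by
  have h0 : 0 < ww n t := lt_of_le_of_ne (ww_nonneg n t) (Ne.symm h)
  unfold ww at h0
  have h1 : 0 < min (1 : ℝ) (min (rr n t - 1) (4 - rr n t)) := by
    rcases lt_max_iff.1 h0 with h2 | h2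
    · exact absurd h2 (lt_irrefl _)
    · exact h2
  have h3 := lt_of_lt_of_le h1 (min_le_right _ _)
  have h4 := lt_of_lt_of_le h3 (min_le_left _ _)
  have h5 := lt_of_lt_of_le h3 (min_le_right _ _)
  constructor <;> linarith

theorem ww_inj_lt {n m : ℕ} {t : unitInterval} (hn : ww n t ≠ 0) (hm : ww m t ≠ 0)
    (hlt : n < m) : False := by
  have h1 := (ww_ne hn).1
  have h2 := (ww_ne hm).2
  unfold rr at h1 h2
  obtain ⟨k, rfl⟩ : ∃ k, m = n + 1 + k := ⟨m - (n + 1), by omega⟩
  have h3 : (4 : ℝ) ^ (n + 1 + k + 1) = 4 ^ (n + 1) * 4 * 4 ^ k := by ring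
  rw [h3] at h2
  have h4 : (1 : ℝ) ≤ 4 ^ k := one_le_pow₀ (by norm_num)
  have h5 : (t : ℝ) * (4 ^ (n + 1) * 4 * 4 ^ k) = ((t : ℝ) * 4 ^ (n + 1)) * (4 * 4 ^ k) := by ring
  rw [h5] at h2
  have h6 : (4 : ℝ) ≤ 4 * 4 ^ k := by linarith
  nlinarith

theorem ww_inj {n m : ℕ} {t : unitInterval} (hn : ww n t ≠ 0) (hm : ww m t ≠ 0) : n = m := by
  rcases lt_trichotomy n m with h | h | h
  · exact (ww_inj_lt hn hm h).elim
  · exact h
  · exact (ww_inj_lt hm hn h).elim

open Classical in
/-- the index of the weight which is not 0 -/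
noncomputable def sel (t : unitInterval) : ℕ := if h : ∃ n, ww n t ≠ 0 then h.choose else 0

theorem sel_eq {n : ℕ} {t : unitInterval} (h : ww n t ≠ 0) : sel t = n := by
  have hex : ∃ n, ww n t ≠ 0 := ⟨n, h⟩
  unfold sel
  rw [dif_pos hex]
  exact ww_inj hex.choose_spec h

/-- the embedding -/
noncomputable def iF {X : Type} (f : (X × unitInterval) × OnePoint ℕ → ℝ)
    (p : X × unitInterval) : ℝ :=
  ww (sel p.2) p.2 * f ((p.1, cc (sel p.2) p.2), ((sel p.2 : ℕ) : OnePoint ℕ))

/-- the finite sums -/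
noncomputable def sF {X : Type} (f : (X × unitInterval) × OnePoint ℕ → ℝ) (N : ℕ)
    (p : X × unitInterval) : ℝ :=
  ∑ n ∈ Finset.range N, ww n p.2 * f ((p.1, cc n p.2), ((n : ℕ) : OnePoint ℕ))

theorem sF_cont {X : Type} [TopologicalSpace X] (f : (X × unitInterval) × OnePoint ℕ → ℝ)
    (hf : Continuous f) (N : ℕ) : Continuous (sF f N) := by
  unfold sF
  refine continuous_finsetSum _ fun n _ => ?_
  refine ((ww_cont n).comp continuous_snd).mul (hf.comp ?_)
  exact (continuous_fst.prodMk ((cc_cont n).comp continuous_snd)).prodMk continuous_const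

theorem sF_eq_of_lt {X : Type} (f : (X × unitInterval) × OnePoint ℕ → ℝ) (N : ℕ)
    (p : X × unitInterval) (h : sel p.2 < N) : sF f N p = iF f p := by
  unfold sF iF
  refine Finset.sum_eq_single (sel p.2) ?_ ?_
  · intro n _ hne
    have : ww n p.2 = 0 := by
      by_contra h0
      exact hne (sel_eq h0).symm
    rw [this, zero_mul]
  · intro hn
    exact absurd (Finset.mem_range.2 h) hn

theorem sF_eq_zero {X : Type} (f : (X × unitInterval) × OnePoint ℕ → ℝ) (N : ℕ)
    (p : X × unitInterval) (h : N ≤ sel p.2) : sF f N p = 0 := by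
  unfold sF
  refine Finset.sum_eq_zero ?_
  intro n hn
  have hn' := Finset.mem_range.1 hn
  have : ww n p.2 = 0 := by
    by_contra h0
    have := sel_eq h0
    omega
  rw [this, zero_mul]

theorem tube {X : Type} [TopologicalSpace X] (f : (X × unitInterval) × OnePoint ℕ → ℝ)
    (hf : Continuous f) (h0 : ∀ y, f (y, OnePoint.infty) = 0) (x : X) (ε : ℝ) (hε : 0 < ε) :
    ∃ U ∈ 𝓝 x, ∃ N : ℕ, ∀ y ∈ U, ∀ s : unitInterval, ∀ n ≥ N,
      |f ((y, s), ((n : ℕ) : OnePoint ℕ))| < ε := by
  have key : ∀ᶠ z in 𝓝 (x, (OnePoint.infty : OnePoint ℕ)), ∀ s ∈ (Set.univ : Set unitInterval),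
      |f ((z.1, s), z.2)| < ε := by
    refine IsCompact.eventually_forall_of_forall_eventually isCompact_univ ?_
    intro s _
    have hc : Continuous fun q : (X × OnePoint ℕ) × unitInterval =>
        |f ((q.1.1, q.2), q.1.2)| := by
      refine continuous_abs.comp (hf.comp ?_)
      exact ((continuous_fst.comp continuous_fst).prodMk continuous_snd).prodMk
        (continuous_snd.comp continuous_fst)
    have := hc.continuousAt (x := ((x, OnePoint.infty), s))
    refine this.eventually_lt continuousAt_const ?_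
    simpa [h0] using hε
  rw [nhds_prod_eq] at key
  obtain ⟨U, hU, V, hV, hUV⟩ := Filter.mem_prod_iff.1 key
  have ht : Filter.Tendsto (fun n : ℕ => ((n : ℕ) : OnePoint ℕ)) Filter.atTop
      (𝓝 (OnePoint.infty : OnePoint ℕ)) :=
    (OnePoint.continuous_iff_from_nat (id : OnePoint ℕ → OnePoint ℕ)).1 continuous_id
  obtain ⟨N, hN⟩ := Filter.eventually_atTop.1 (ht hV)
  exact ⟨U, hU, N, fun y hy s n hn => hUV (Set.mk_mem_prod hy (hN n hn)) s (Set.mem_univ _)⟩

theorem iF_cont {X : Type} [TopologicalSpace X] (f : (X × unitInterval) × OnePoint ℕ → ℝ)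
    (hf : Continuous f) (h0 : ∀ y, f (y, OnePoint.infty) = 0) : Continuous (iF f) := by
  rw [continuous_iff_continuousAt]
  intro p
  rw [Metric.continuousAt_iff']
  intro ε hε
  obtain ⟨U, hU, N, hN⟩ := tube f hf h0 p.1 (ε / 3) (by linarith)
  have happ : ∀ q : X × unitInterval, q.1 ∈ U → |iF f q - sF f N q| < ε / 3 := by
    intro q hq
    rcases lt_or_ge (sel q.2) N with h | h
    · rw [sF_eq_of_lt f N q h, sub_self, abs_zero]
      linarith
    · rw [sF_eq_zero f N q h, sub_zero]
      have h1 := hN q.1 hq (cc (sel q.2) q.2) (sel q.2) h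
      unfold iF
      rw [abs_mul, abs_of_nonneg (ww_nonneg _ _)]
      have h2 := ww_le_one (sel q.2) q.2
      have h3 := ww_nonneg (sel q.2) q.2
      have h4 : ww (sel q.2) q.2 * |f ((q.1, cc (sel q.2) q.2), ((sel q.2 : ℕ) : OnePoint ℕ))| ≤
          1 * |f ((q.1, cc (sel q.2) q.2), ((sel q.2 : ℕ) : OnePoint ℕ))| :=
        mul_le_mul_of_nonneg_right h2 (abs_nonneg _)
      linarith
  have h1 : ∀ᶠ q in 𝓝 p, q.1 ∈ U := (continuous_fst.tendsto p) hU
  have h2 : ∀ᶠ q in 𝓝 p, dist (sF f N q) (sF f N p) < ε / 3 :=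
    Metric.continuousAt_iff'.1 (sF_cont f hf N).continuousAt (ε / 3) (by linarith)
  filter_upwards [h1, h2] with q hq1 hq2
  have h3 := happ q hq1
  have h4 := happ p (mem_of_mem_nhds hU)
  rw [Real.dist_eq] at hq2 ⊢
  rw [abs_lt] at *
  constructor <;> linarith [h3.1, h3.2, h4.1, h4.2, hq2.1, hq2.2]

/-- the embedding as a continuous linear map -/
noncomputable def iL (X : Type) [TopologicalSpace X] :
    ↥(Cz (X × unitInterval)) →L[ℝ] ↥(Cp (X × unitInterval)) where
  toFun f := ⟨iF f.1, iF_cont f.1 f.2.1 f.2.2⟩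
  map_add' f g := by
    apply Subtype.ext
    funext p
    show iF (f.1 + g.1) p = iF f.1 p + iF g.1 p
    unfold iF
    rw [Pi.add_apply]
    ring
  map_smul' c f := by
    apply Subtype.ext
    funext p
    show iF (c • f.1) p = c * iF f.1 p
    unfold iF
    rw [Pi.smul_apply, smul_eq_mul]
    ring
  cont := by
    refine Continuous.subtype_mk ?_ _
    refine continuous_pi fun p => ?_
    exact continuous_const.mul ((continuous_apply _).comp continuous_subtype_val)

/-- the scales -/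
noncomputable def qq : OnePoint ℕ → ℝ := fun ν =>
  OnePoint.elim ν (0 : ℝ) (fun n : ℕ => ((4 : ℝ) ^ (n + 1))⁻¹)

theorem qq_coe (n : ℕ) : qq ((n : ℕ) : OnePoint ℕ) = ((4 : ℝ) ^ (n + 1))⁻¹ := rfl

theorem qq_infty : qq OnePoint.infty = 0 := rfl

theorem qq_cont : Continuous qq := by
  rw [OnePoint.continuous_iff_from_nat]
  show Filter.Tendsto (fun n : ℕ => ((4 : ℝ) ^ (n + 1))⁻¹) Filter.atTop (𝓝 0)
  have h : Filter.Tendsto (fun n : ℕ => ((4 : ℝ)⁻¹) ^ (n + 1)) Filter.atTop (𝓝 0) :=
    (tendsto_pow_atTop_nhds_zero_of_lt_one (by norm_num) (by norm_num)).comp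
      (Filter.tendsto_add_atTop_nat 1)
  refine h.congr fun n => ?_
  rw [inv_pow]

theorem qq_nonneg (ν : OnePoint ℕ) : 0 ≤ qq ν := by
  induction ν using OnePoint.rec with
  | infty => exact le_of_eq qq_infty.symm
  | coe n =>
    rw [qq_coe]
    positivity

theorem qq_le (ν : OnePoint ℕ) : qq ν ≤ 1 / 4 := by
  induction ν using OnePoint.rec with
  | infty =>
    rw [qq_infty]
    norm_num
  | coe n =>
    rw [qq_coe, one_div]
    refine inv_anti₀ (by norm_num) ?_
    have : (1 : ℝ) ≤ 4 ^ n := one_le_pow₀ (by norm_num)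
    rw [pow_succ]
    linarith

/-- the point of the interval `J_n` -/
noncomputable def tt (s : unitInterval) (ν : OnePoint ℕ) : unitInterval :=
  ⟨(2 + s) * qq ν, mul_nonneg (by linarith [s.2.1]) (qq_nonneg ν), by
    have h1 := s.2.2
    have h2 := s.2.1
    have h3 := qq_nonneg ν
    have h4 := qq_le ν
    nlinarith⟩

theorem tt_infty (s : unitInterval) : tt s OnePoint.infty = 0 := by
  apply Subtype.ext
  show (2 + (s : ℝ)) * qq OnePoint.infty = 0
  rw [qq_infty, mul_zero]

theorem tt_cont : Continuous fun q : unitInterval × OnePoint ℕ => tt q.1 q.2 := by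
  refine Continuous.subtype_mk ?_ _
  exact (continuous_const.add (continuous_subtype_val.comp continuous_fst)).mul
    (qq_cont.comp continuous_snd)

theorem rr_tt (s : unitInterval) (n : ℕ) : rr n (tt s ((n : ℕ) : OnePoint ℕ)) = 2 + s := by
  unfold rr
  show (2 + (s : ℝ)) * qq ((n : ℕ) : OnePoint ℕ) * 4 ^ (n + 1) = 2 + s
  rw [qq_coe]
  have : (4 : ℝ) ^ (n + 1) ≠ 0 := by positivity
  rw [mul_assoc, inv_mul_cancel₀ this, mul_one]

theorem ww_tt (s : unitInterval) (n : ℕ) : ww n (tt s ((n : ℕ) : OnePoint ℕ)) = 1 := by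
  unfold ww
  rw [rr_tt]
  have h1 := s.2.2
  have h2 := s.2.1
  have h3 : (1 : ℝ) ≤ min (2 + (s : ℝ) - 1) (4 - (2 + s)) := le_min (by linarith) (by linarith)
  rw [min_eq_left h3]
  exact max_eq_right zero_le_one

theorem cc_tt (s : unitInterval) (n : ℕ) : cc n (tt s ((n : ℕ) : OnePoint ℕ)) = s := by
  unfold cc
  rw [rr_tt]
  have : (2 : ℝ) + (s : ℝ) - 2 = s := by ring
  rw [this]
  exact Set.projIcc_val zero_le_one s

theorem sel_tt (s : unitInterval) (n : ℕ) : sel (tt s ((n : ℕ) : OnePoint ℕ)) = n := by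
  refine sel_eq ?_
  rw [ww_tt]
  exact one_ne_zero

theorem ww_zero (n : ℕ) : ww n 0 = 0 := by
  unfold ww rr
  have h : min (1 : ℝ) (min (((0 : unitInterval) : ℝ) * 4 ^ (n + 1) - 1)
      (4 - ((0 : unitInterval) : ℝ) * 4 ^ (n + 1))) ≤ 0 := by
    refine (min_le_right _ _).trans ((min_le_left _ _).trans ?_)
    simp
  exact max_eq_left h

theorem iF_zero {X : Type} (f : (X × unitInterval) × OnePoint ℕ → ℝ) (x : X) :
    iF f (x, 0) = 0 := by
  unfold iF
  rw [ww_zero, zero_mul]

theorem iF_tt {X : Type} (f : (X × unitInterval) × OnePoint ℕ → ℝ) (x : X) (s : unitInterval)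
    (n : ℕ) : iF f (x, tt s ((n : ℕ) : OnePoint ℕ)) = f ((x, s), ((n : ℕ) : OnePoint ℕ)) := by
  unfold iF
  simp only [sel_tt, ww_tt, cc_tt, one_mul]

/-- the projection -/
noncomputable def pF {X : Type} (g : X × unitInterval → ℝ)
    (q : (X × unitInterval) × OnePoint ℕ) : ℝ :=
  g (q.1.1, tt q.1.2 q.2) - g (q.1.1, 0)

theorem pF_cont {X : Type} [TopologicalSpace X] (g : X × unitInterval → ℝ) (hg : Continuous g) :
    Continuous (pF g) := by
  unfold pF
  refine (hg.comp ?_).sub (hg.comp ?_)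
  · exact (continuous_fst.comp continuous_fst).prodMk
      (tt_cont.comp ((continuous_snd.comp continuous_fst).prodMk continuous_snd))
  · exact (continuous_fst.comp continuous_fst).prodMk continuous_const

theorem pF_infty {X : Type} (g : X × unitInterval → ℝ) (y : X × unitInterval) :
    pF g (y, OnePoint.infty) = 0 := by
  unfold pF
  simp only [tt_infty, sub_self]

/-- the projection as a continuous linear map -/
noncomputable def pL (X : Type) [TopologicalSpace X] :
    ↥(Cp (X × unitInterval)) →L[ℝ] ↥(Cz (X × unitInterval)) where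
  toFun g := ⟨pF g.1, pF_cont g.1 g.2, pF_infty g.1⟩
  map_add' f g := by
    apply Subtype.ext
    funext p
    show pF (f.1 + g.1) p = pF f.1 p + pF g.1 p
    unfold pF
    rw [Pi.add_apply, Pi.add_apply]
    ring
  map_smul' c f := by
    apply Subtype.ext
    funext p
    show pF (c • f.1) p = c * pF f.1 p
    unfold pF
    rw [Pi.smul_apply, Pi.smul_apply, smul_eq_mul, smul_eq_mul]
    ring
  cont := by
    refine Continuous.subtype_mk ?_ _
    refine continuous_pi fun p => ?_
    exact ((continuous_apply _).comp continuous_subtype_val).sub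
      ((continuous_apply _).comp continuous_subtype_val)

theorem czi : CziStmt := by
  intro X _
  refine ⟨iL X, pL X, fun f => ?_⟩
  apply Subtype.ext
  funext q
  obtain ⟨⟨x, s⟩, ν⟩ := q
  show pF (iF f.1) ((x, s), ν) = f.1 ((x, s), ν)
  induction ν using OnePoint.rec with
  | infty =>
    rw [pF_infty]
    exact (f.2.2 (x, s)).symm
  | coe n =>
    show iF f.1 (x, tt s ((n : ℕ) : OnePoint ℕ)) - iF f.1 (x, 0) = _
    rw [iF_zero, sub_zero, iF_tt]

end Pool.Agent.LSG.H21
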